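import Pool.Agent.Run7.h994.PR.Stm

/-!
# Project PR (helper994), piece TW: the average of the truncated singular series of the prime pairs (helper824)
-/

set_option autoImplicit false

namespace Run7.h824.PR

open Finset
open Pool.Agent.H373R2.T7 (pz mem_pz)
open Run7.h994.PR (nu tw S_TW)

theorem sum_Ico_lin (H k : ℝ) (M : ℕ) :
    ∑ m ∈ Ico 1 (M + 1), (H - k * m) = H * M - k * (M * (M + 1) / 2) := by
  induction M with
  | zero => simp
  | succ n ih =>
    rw [Finset.sum_Ico_succ_top (by omega), ih]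
    push_cast
    ring

theorem sum_dvd_le (k H : ℕ) (hk : 1 ≤ k) :
    ∑ h ∈ Ico 1 H, (if k ∣ h then ((H : ℝ) - h) else 0) ≤ (H : ℝ) ^ 2 / (2 * k) := by
  have hk0 : (0 : ℝ) < k := by exact_mod_cast hk
  rw [← Finset.sum_filter]
  have h1 : ∑ h ∈ (Ico 1 H).filter (fun h => k ∣ h), ((H : ℝ) - h) =
      ∑ m ∈ Ico 1 ((H - 1) / k + 1), ((H : ℝ) - k * m) := by
    symm
    refine Finset.sum_nbij' (fun m => k * m) (fun h => h / k) ?_ ?_ ?_ ?_ ?_
    · intro m hm
      rw [Finset.mem_Ico] at hm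
      rw [Finset.mem_filter, Finset.mem_Ico]
      have h2 : m ≤ (H - 1) / k := by omega
      have h3 : m * k ≤ H - 1 := (Nat.le_div_iff_mul_le (by omega)).1 h2
      have h4 : 1 ≤ k * m := Nat.mul_pos hk hm.1
      refine ⟨⟨h4, ?_⟩, dvd_mul_right k m⟩
      rw [mul_comm] at h3
      omega
    · intro h hh
      rw [Finset.mem_filter, Finset.mem_Ico] at hh
      rw [Finset.mem_Ico]
      have h2 : 0 < h / k := Nat.div_pos (Nat.le_of_dvd (by omega) hh.2) (by omega)
      have h3 : h / k ≤ (H - 1) / k := Nat.div_le_div_right (by omega)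
      omega
    · intro m _
      exact Nat.mul_div_cancel_left m (by omega)
    · intro h hh
      rw [Finset.mem_filter] at hh
      exact Nat.mul_div_cancel' hh.2
    · intro m _
      push_cast
      ring
  rw [h1, sum_Ico_lin]
  set M : ℝ := (((H - 1) / k : ℕ) : ℝ) with hM
  have hM0 : 0 ≤ M := Nat.cast_nonneg _
  rw [le_div_iff₀ (by positivity)]
  nlinarith [sq_nonneg ((H : ℝ) - k * M), mul_nonneg hk0.le (mul_nonneg hk0.le hM0)]

/-- the factor of an odd prime, without the condition -/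
noncomputable def uu (p : ℕ) : ℝ := (1 - 2 / (p : ℝ)) / (1 - 1 / (p : ℝ)) ^ 2

/-- the relative change of the factor -/
noncomputable def xx (p : ℕ) : ℝ := 1 / ((p : ℝ) - 2)

theorem factor_odd {p h : ℕ} (hp : 3 ≤ p) :
    (1 - (nu h p : ℝ) / p) / (1 - 1 / (p : ℝ)) ^ 2 = uu p * (1 + (if p ∣ h then xx p else 0)) := by
  have hp3 : (3 : ℝ) ≤ p := by exact_mod_cast hp
  have hp0 : (p : ℝ) ≠ 0 := by linarith
  have hp1 : (p : ℝ) - 1 ≠ 0 := by linarith
  have hp2 : (p : ℝ) - 2 ≠ 0 := by linarith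
  unfold nu uu xx
  split_ifs
  · have e : 1 - 1 / (p : ℝ) = ((p : ℝ) - 1) / p := by field_simp
    push_cast
    rw [e]
    field_simp
    ring
  · push_cast
    ring

theorem uu_mul {p : ℕ} (hp : 3 ≤ p) : uu p * (1 + xx p / p) = 1 := by
  have hp3 : (3 : ℝ) ≤ p := by exact_mod_cast hp
  have hp0 : (p : ℝ) ≠ 0 := by linarith
  have hp1 : (p : ℝ) - 1 ≠ 0 := by linarith
  have hp2 : (p : ℝ) - 2 ≠ 0 := by linarith
  unfold uu xx
  have e : 1 - 1 / (p : ℝ) = ((p : ℝ) - 1) / p := by field_simp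
  rw [e]
  field_simp
  ring

theorem uu_nonneg {p : ℕ} (hp : 3 ≤ p) : 0 ≤ uu p := by
  have hp3 : (3 : ℝ) ≤ p := by exact_mod_cast hp
  unfold uu
  apply div_nonneg _ (sq_nonneg _)
  rw [sub_nonneg, div_le_one (by linarith)]
  linarith

theorem xx_nonneg {p : ℕ} (hp : 3 ≤ p) : 0 ≤ xx p := by
  have hp3 : (3 : ℝ) ≤ p := by exact_mod_cast hp
  unfold xx
  apply div_nonneg zero_le_one
  linarith

/-- **TW.** -/
theorem t_TW : S_TW := by
  intro H w hw
  have h2mem : 2 ∈ pz w := mem_pz.2 ⟨hw, Nat.prime_two⟩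
  set T := (pz w).erase 2 with hT
  have hT3 : ∀ p ∈ T, p.Prime ∧ 3 ≤ p := by
    intro p hp
    rw [hT, Finset.mem_erase, mem_pz] at hp
    refine ⟨hp.2.2, ?_⟩
    have := hp.2.2.two_le
    omega
  set U : ℝ := ∏ p ∈ T, uu p with hU
  have hU0 : 0 ≤ U := Finset.prod_nonneg fun p hp => uu_nonneg (hT3 p hp).2
  -- the expansion
  have hexp : ∀ h ∈ Ico 1 H, ((H : ℝ) - h) * tw h w =
      2 * U * ∑ S ∈ T.powerset, (∏ p ∈ S, xx p) * (if 2 * ∏ p ∈ S, p ∣ h then ((H : ℝ) - h) else 0) := by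
    intro h _
    unfold tw
    rw [← Finset.mul_prod_erase _ _ h2mem, ← hT]
    have e1 : ∏ p ∈ T, ((1 - (nu h p : ℝ) / p) / (1 - 1 / (p : ℝ)) ^ 2) =
        U * ∏ p ∈ T, (1 + (if p ∣ h then xx p else 0)) := by
      rw [hU, ← Finset.prod_mul_distrib]
      exact Finset.prod_congr rfl fun p hp => factor_odd (hT3 p hp).2
    rw [e1, Finset.prod_one_add]
    by_cases h2 : 2 ∣ h
    · have e2 : (1 - (nu h 2 : ℝ) / (2 : ℕ)) / (1 - 1 / ((2 : ℕ) : ℝ)) ^ 2 = 2 := by
        unfold nu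
        rw [if_pos h2]
        norm_num
      rw [e2, Finset.mul_sum, Finset.mul_sum, Finset.mul_sum, Finset.mul_sum]
      refine Finset.sum_congr rfl fun S hS => ?_
      rw [Finset.mem_powerset] at hS
      have e3 : ∏ p ∈ S, (if p ∣ h then xx p else 0) =
          (∏ p ∈ S, xx p) * (if 2 * ∏ p ∈ S, p ∣ h then 1 else 0) := by
        by_cases hall : ∀ p ∈ S, p ∣ h
        · have h3 : (∏ p ∈ S, p) ∣ h :=
            Finset.prod_primes_dvd h (fun p hp => (hT3 p (hS hp)).1.prime) hall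
          have hcop : Nat.Coprime 2 (∏ p ∈ S, p) := by
            apply Nat.Coprime.prod_right
            intro p hp
            have := hT3 p (hS hp)
            exact (Nat.coprime_primes Nat.prime_two this.1).2 (by omega)
          rw [if_pos (hcop.mul_dvd_of_dvd_of_dvd h2 h3), mul_one]
          exact Finset.prod_congr rfl fun p hp => if_pos (hall p hp)
        · push Not at hall
          obtain ⟨p, hp, hpn⟩ := hall
          rw [Finset.prod_eq_zero hp (if_neg hpn), if_neg, mul_zero]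
          intro hd
          exact hpn (((Finset.dvd_prod_of_mem _ hp).trans (dvd_mul_left _ _)).trans hd)
      rw [e3]
      split_ifs <;> ring
    · have e2 : (1 - (nu h 2 : ℝ) / (2 : ℕ)) / (1 - 1 / ((2 : ℕ) : ℝ)) ^ 2 = 0 := by
        unfold nu
        rw [if_neg h2]
        norm_num
      rw [e2, zero_mul, mul_zero]
      symm
      rw [Finset.sum_eq_zero, mul_zero]
      intro S _
      rw [if_neg, mul_zero]
      intro hd
      exact h2 ((dvd_mul_right 2 _).trans hd)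
  rw [Finset.sum_congr rfl hexp, ← Finset.mul_sum, Finset.sum_comm]
  -- the inner sums
  have hin : ∀ S ∈ T.powerset, ∑ h ∈ Ico 1 H, (∏ p ∈ S, xx p) *
      (if 2 * ∏ p ∈ S, p ∣ h then ((H : ℝ) - h) else 0) ≤
      (H : ℝ) ^ 2 / 4 * ∏ p ∈ S, (xx p / p) := by
    intro S hS
    rw [Finset.mem_powerset] at hS
    have hX : 0 ≤ ∏ p ∈ S, xx p := Finset.prod_nonneg fun p hp => xx_nonneg (hT3 p (hS hp)).2
    have hD : 1 ≤ ∏ p ∈ S, p := Nat.one_le_iff_ne_zero.2
      (Finset.prod_ne_zero_iff.2 fun p hp => by have := (hT3 p (hS hp)).2; omega)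
    rw [← Finset.mul_sum]
    refine (mul_le_mul_of_nonneg_left (sum_dvd_le _ H (by omega)) hX).trans (le_of_eq ?_)
    rw [Finset.prod_div_distrib]
    push_cast
    ring
  have hsum : ∑ S ∈ T.powerset, ∑ h ∈ Ico 1 H, (∏ p ∈ S, xx p) *
      (if 2 * ∏ p ∈ S, p ∣ h then ((H : ℝ) - h) else 0) ≤
      (H : ℝ) ^ 2 / 4 * ∏ p ∈ T, (1 + xx p / p) := by
    refine (Finset.sum_le_sum hin).trans (le_of_eq ?_)
    rw [← Finset.mul_sum, Finset.prod_one_add]
  refine (mul_le_mul_of_nonneg_left hsum (by positivity)).trans (le_of_eq ?_)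
  have hone : U * ∏ p ∈ T, (1 + xx p / p) = 1 := by
    rw [hU, ← Finset.prod_mul_distrib]
    exact Finset.prod_eq_one fun p hp => uu_mul (hT3 p hp).2
  calc 2 * U * ((H : ℝ) ^ 2 / 4 * ∏ p ∈ T, (1 + xx p / p))
      = (H : ℝ) ^ 2 / 2 * (U * ∏ p ∈ T, (1 + xx p / p)) := by ring
    _ = (H : ℝ) ^ 2 / 2 := by rw [hone, mul_one]

end Run7.h824.PR
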