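import Pool.Agent.Run7.h994.PR.Stm
import Pool.Agent.Run7.h704.BPD.UP

/-!
# Project PR (helper994), piece UP2: pointwise upper bound for the pairs (helper824)
-/

set_option autoImplicit false

namespace Run7.h824.PR

open Finset Filter Topology Polynomial
open Pool.Agent.H373R2.T7 (pz Vz mem_pz Vz_pos)
open Pool.Agent.TH204.WR (rho flp prod_nonneg')
open Run7.h994.PR (Q r2 g2 P2 S_UP2)
open Run7.h704.BPD (eval_large)

theorem eval_Q (F : ℤ[X]) (a b n : ℤ) : (Q F a b).eval n = (F.eval n + a) * (F.eval n + b) := by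
  unfold Q
  simp

theorem natDegree_Q (F : ℤ[X]) (a b : ℤ) : (Q F a b).natDegree ≤ 2 * F.natDegree := by
  unfold Q
  refine natDegree_mul_le.trans ?_
  rw [natDegree_add_C, natDegree_add_C]
  omega

theorem dvd_of_rho (F : ℤ[X]) (p : ℕ) (hp : 0 < p) (h : p ≤ rho F 0 p) (n : ℤ) : (p : ℤ) ∣ F.eval n := by
  have h1 : ((range p).filter (fun b : ℕ => (p : ℤ) ∣ F.eval (b : ℤ) + 0)) = range p := by
    refine eq_of_subset_of_card_le (filter_subset _ _) ?_
    rw [card_range]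
    exact h
  have hp0 : (0 : ℤ) < p := by exact_mod_cast hp
  have h2 : (n % p).toNat ∈ range p := by
    rw [mem_range]
    have := Int.emod_lt_of_pos n hp0
    have := Int.emod_nonneg n hp0.ne'
    omega
  rw [← h1, mem_filter] at h2
  have h3 := h2.2
  rw [Int.toNat_of_nonneg (Int.emod_nonneg n hp0.ne')] at h3
  have h4 : (p : ℤ) ∣ F.eval n - F.eval (n % p) := by
    refine dvd_trans ?_ (sub_dvd_eval_sub n (n % p) F)
    exact Int.dvd_self_sub_emod
  have h5 := dvd_add h4 h3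
  have e : F.eval n - F.eval (n % p) + (F.eval (n % p) + 0) = F.eval n := by ring
  rwa [e] at h5

/-- a prime value divisible by a small prime is small -/
theorem small_of_dvd {v : ℤ} {p z : ℕ} (hp : p.Prime) (hpz : p ≤ z) (hv : v.toNat.Prime) (hd : (p : ℤ) ∣ v) :
    v ≤ z := by
  have hpos : 0 < v := by
    have := hv.pos
    omega
  have e1 : (v.toNat : ℤ) = v := Int.toNat_of_nonneg hpos.le
  rw [← e1] at hd ⊢
  have h8 : p ∣ v.toNat := by exact_mod_cast hd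
  have h9 := (Nat.prime_dvd_prime_iff_eq hp hv).1 h8
  rw [← h9]
  exact_mod_cast hpz

/-- **UP2.** -/
theorem t_UP2 (F : ℤ[X]) (hl : 0 < F.leadingCoeff) (hd : 1 ≤ F.natDegree) : S_UP2 F := by
  classical
  obtain ⟨C1, y0, hC1, hy0, H⟩ := flp (2 * F.natDegree) (by omega)
  obtain ⟨n0, hn0⟩ := eval_large F hl hd
  obtain ⟨D, hD⟩ : ∃ D : ℕ, D = 10 * C1 ^ 2 := ⟨_, rfl⟩
  have hD10 : 10 ≤ D := by
    have := Nat.one_le_pow 2 C1 (by omega)
    omega
  have hDr : (10 : ℝ) ≤ D := by exact_mod_cast hD10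
  have hD0 : (0 : ℝ) < D := by linarith
  have hlim : Tendsto (fun N : ℕ => (N : ℝ) ^ (1 / (2 * (D : ℝ)))) atTop atTop :=
    (tendsto_rpow_atTop (by positivity)).comp (tendsto_natCast_atTop_atTop (R := ℝ))
  obtain ⟨N₁, hN₁⟩ := eventually_atTop.1 (hlim.eventually_ge_atTop ((y0 : ℝ) + 2))
  refine ⟨2 * n0 + 10, by
    have : (0 : ℝ) ≤ n0 := Nat.cast_nonneg _
    linarith, 1 / (2 * D), by positivity, ?_, N₁ + 1, ?_⟩
  · rw [div_le_div_iff₀ (by positivity) (by norm_num)]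
    linarith
  intro N hN
  have hN1 : 1 ≤ N := by omega
  have hNr : (1 : ℝ) ≤ N := by exact_mod_cast hN1
  have hN0 : (0 : ℝ) < N := by linarith
  set r : ℝ := (N : ℝ) ^ (1 / (2 * (D : ℝ))) with hr
  have hr2 : (y0 : ℝ) + 2 ≤ r := hN₁ N (by omega)
  have hy0r : (0 : ℝ) ≤ y0 := Nat.cast_nonneg _
  have hrr : r * r = (N : ℝ) ^ (1 / (D : ℝ)) := by
    rw [hr, ← Real.rpow_add hN0]
    congr 1
    field_simp
    ring
  set z : ℕ := ⌊r * r⌋₊ with hz
  have hz1 : (z : ℝ) ≤ r * r := Nat.floor_le (by positivity)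
  have hz2 : r * r - 1 < z := Nat.sub_one_lt_floor _
  have hrz : r ≤ z := by nlinarith
  have hzy : y0 ≤ z := by
    have : (y0 : ℝ) ≤ z := by linarith
    exact_mod_cast this
  have hzD : (z : ℝ) ≤ (N : ℝ) ^ (1 / (D : ℝ)) := by rw [← hrr]; exact hz1
  have hz10 : (z : ℝ) ≤ (N : ℝ) ^ (1 / 10 : ℝ) :=
    hzD.trans (Real.rpow_le_rpow_of_exponent_le hNr (one_div_le_one_div_of_le (by norm_num) hDr))
  refine ⟨z, by omega, hrz, hz10, fun a b => ?_⟩
  have hzc : z ^ (C1 * C1) ≤ N := by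
    have h1 : (z : ℝ) ^ (C1 * C1) ≤ N := by
      calc (z : ℝ) ^ (C1 * C1) ≤ ((N : ℝ) ^ (1 / (D : ℝ))) ^ (C1 * C1) := by gcongr
        _ = (N : ℝ) ^ (1 / (D : ℝ) * ((C1 * C1 : ℕ) : ℝ)) := by
            rw [← Real.rpow_natCast, ← Real.rpow_mul hN0.le]
        _ ≤ (N : ℝ) ^ (1 : ℝ) := by
            refine Real.rpow_le_rpow_of_exponent_le hNr ?_
            rw [one_div, inv_mul_le_iff₀ hD0, hD]
            push_cast
            nlinarith
        _ = N := Real.rpow_one _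
    exact_mod_cast h1
  -- the `n` with `F(n) ≤ z`
  have hz34 : (z : ℝ) ≤ (N : ℝ) ^ (3 / 4 : ℝ) :=
    hz10.trans (Real.rpow_le_rpow_of_exponent_le hNr (by norm_num))
  have h134 : (1 : ℝ) ≤ (N : ℝ) ^ (3 / 4 : ℝ) := Real.one_le_rpow hNr (by norm_num)
  have hsmall : (#((Icc 1 N).filter (fun n : ℕ => F.eval (n : ℤ) ≤ z)) : ℝ) ≤
      (n0 + 2) * (N : ℝ) ^ (3 / 4 : ℝ) := by
    have h1 : #((Icc 1 N).filter (fun n : ℕ => F.eval (n : ℤ) ≤ z)) ≤ n0 + 2 * z := by
      calc #((Icc 1 N).filter (fun n : ℕ => F.eval (n : ℤ) ≤ z)) ≤ #(Icc 1 (n0 + 2 * z)) := by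
            refine card_le_card fun n hn => ?_
            rw [mem_filter, mem_Icc] at hn
            rw [mem_Icc]
            refine ⟨hn.1.1, ?_⟩
            by_contra hcon
            push Not at hcon
            have := hn0 n (by omega)
            have h2 := hn.2
            omega
        _ = n0 + 2 * z := by rw [Nat.card_Icc]; omega
    have h2 : (#((Icc 1 N).filter (fun n : ℕ => F.eval (n : ℤ) ≤ z)) : ℝ) ≤ n0 + 2 * z := by
      exact_mod_cast h1
    have h3 : (n0 : ℝ) ≤ n0 * (N : ℝ) ^ (3 / 4 : ℝ) :=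
      le_mul_of_one_le_right (Nat.cast_nonneg _) h134
    linarith
  have hVhh : Vz z ^ 2 * g2 F a b z = ∏ p ∈ pz z, (1 - (rho (Q F a b) 0 p : ℝ) / p) := by
    unfold g2
    rw [mul_div_cancel₀ _ (pow_ne_zero 2 (Vz_pos z).ne')]
    rfl
  have hprod := prod_nonneg' (Q F a b) 0 z
  rw [hVhh]
  by_cases hrho : ∀ p ∈ pz z, rho (Q F a b) 0 p < p
  · have h := H (Q F a b) 0 (natDegree_Q F a b) C1 le_rfl z hzy hrho N hzc 0
    simp only [zero_add] at h
    have h4 := (abs_le.1 h).2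
    have h5 : (1 / 2 : ℝ) ^ C1 ≤ 1 := pow_le_one₀ (by norm_num) (by norm_num)
    set V := ∏ p ∈ pz z, (1 - (rho (Q F a b) 0 p : ℝ) / p) with hV
    have hNV : 0 ≤ (N : ℝ) * V := mul_nonneg hN0.le hprod
    have h6 : 2 * (1 / 2 : ℝ) ^ C1 * (N * V) ≤ 2 * 1 * (N * V) := by gcongr
    have hcount : (P2 F a b N : ℝ) ≤ (#((Icc 1 N).filter (fun n : ℕ => F.eval (n : ℤ) ≤ z)) : ℝ) +
        (#((Icc 1 N).filter (fun s : ℕ => ∀ p ∈ pz z, ¬ (p : ℤ) ∣ (Q F a b).eval (s : ℤ) + 0)) : ℝ) := by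
      have h7 : P2 F a b N ≤ #((Icc 1 N).filter (fun n : ℕ => F.eval (n : ℤ) ≤ z)) +
          #((Icc 1 N).filter (fun s : ℕ => ∀ p ∈ pz z, ¬ (p : ℤ) ∣ (Q F a b).eval (s : ℤ) + 0)) := by
        unfold P2
        refine le_trans (card_le_card ?_) (card_union_le _ _)
        intro n hn
        rw [mem_filter] at hn
        rw [mem_union, mem_filter, mem_filter]
        by_cases hnz : F.eval (n : ℤ) ≤ z
        · exact Or.inl ⟨hn.1, hnz⟩
        · right
          refine ⟨hn.1, fun p hp hdv => hnz ?_⟩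
          have hp' := mem_pz.1 hp
          rw [add_zero, eval_Q] at hdv
          have ha0 : (0 : ℤ) ≤ a := Int.natCast_nonneg _
          have hb0 : (0 : ℤ) ≤ b := Int.natCast_nonneg _
          rcases (Nat.prime_iff_prime_int.1 hp'.2).dvd_or_dvd hdv with hd1 | hd1
          · have := small_of_dvd hp'.2 hp'.1 hn.2.1 hd1
            linarith
          · have := small_of_dvd hp'.2 hp'.1 hn.2.2 hd1
            linarith
      exact_mod_cast h7
    have hn00 : (0 : ℝ) ≤ n0 := Nat.cast_nonneg _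
    have h10 : 0 ≤ (2 * (n0 : ℝ)) * ((N : ℝ) * V) := by positivity
    have e2 : (2 * (n0 : ℝ) + 10) * N * V = (2 * (n0 : ℝ)) * (N * V) + 10 * (N * V) := by ring
    rw [e2]
    have h11 : ((n0 : ℝ) + 2) * (N : ℝ) ^ (3 / 4 : ℝ) ≤ (2 * n0 + 10) * (N : ℝ) ^ (3 / 4 : ℝ) :=
      mul_le_mul_of_nonneg_right (by linarith) (by positivity)
    linarith
  · push Not at hrho
    obtain ⟨p, hp, hrp⟩ := hrho
    have hp' := mem_pz.1 hp
    have hcount : (P2 F a b N : ℝ) ≤ (#((Icc 1 N).filter (fun n : ℕ => F.eval (n : ℤ) ≤ z)) : ℝ) := by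
      have : P2 F a b N ≤ #((Icc 1 N).filter (fun n : ℕ => F.eval (n : ℤ) ≤ z)) := by
        unfold P2
        refine card_le_card fun n hn => ?_
        rw [mem_filter] at hn ⊢
        refine ⟨hn.1, ?_⟩
        have h6 := dvd_of_rho (Q F a b) p hp'.2.pos hrp n
        rw [eval_Q] at h6
        have ha0 : (0 : ℤ) ≤ a := Int.natCast_nonneg _
        have hb0 : (0 : ℤ) ≤ b := Int.natCast_nonneg _
        rcases (Nat.prime_iff_prime_int.1 hp'.2).dvd_or_dvd h6 with hd1 | hd1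
        · have := small_of_dvd hp'.2 hp'.1 hn.2.1 hd1
          linarith
        · have := small_of_dvd hp'.2 hp'.1 hn.2.2 hd1
          linarith
      exact_mod_cast this
    have hn00 : (0 : ℝ) ≤ n0 := Nat.cast_nonneg _
    have h11 : ((n0 : ℝ) + 2) * (N : ℝ) ^ (3 / 4 : ℝ) ≤ (2 * n0 + 10) * (N : ℝ) ^ (3 / 4 : ℝ) :=
      mul_le_mul_of_nonneg_right (by linarith) (by positivity)
    have h12 : 0 ≤ (2 * (n0 : ℝ) + 10) * N * ∏ p ∈ pz z, (1 - (rho (Q F a b) 0 p : ℝ) / p) := by positivity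
    linarith

end Run7.h824.PR
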